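import Mathlib

namespace Pool.Agent.Results.MP_5f25aa_nt.TenToTheTen

/-- Arithmetic expressions built from copies of `2` with addition and multiplication. -/
inductive Expr : Type
  | two : Expr
  | add : Expr → Expr → Expr
  | mul : Expr → Expr → Expr

namespace Expr

/-- The value of an expression. -/
def eval : Expr → ℕ
  | two => 2
  | add a b => a.eval + b.eval
  | mul a b => a.eval * b.eval

/-- The number of copies of `2` in an expression. -/
def count : Expr → ℕ
  | two => 1
  | add a b => a.count + b.count
  | mul a b => a.count + b.count

end Expr

/-- The 2-complexity: the least number of copies of `2` in an expression with value `n`. -/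
noncomputable def complexity (n : ℕ) : ℕ :=
  sInf {k | ∃ e : Expr, e.eval = n ∧ e.count = k}

open Expr in
/-- An expression with 39 copies of `2` and value `10 ^ 10`. -/
def witness : Expr :=
  (mul two (mul two (mul two (mul two (mul two (mul two (mul two (mul two (mul two (add two
  (mul two (mul (add two (mul two two)) (mul (add two (mul two (mul two (mul two (add two
  (mul two (mul two (mul two (mul two (mul two (mul two two))))))))))) (add two (mul two
  (mul (add two (mul two two)) (add two (mul two (mul two (mul two (mul two (mul two (mul
  two two)))))))))))))))))))))))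

lemma complexity_le : complexity (10 ^ 10) ≤ 39 := by
  refine Nat.sInf_le ⟨witness, ?_, ?_⟩
  · norm_num [witness, Expr.eval]
  · norm_num [witness, Expr.count]

/-- The asserted formula fails: for `m = 0`, `u = 3`, `r = 10` the number is `10 ^ 10`, whose
2-complexity is at most `39`, while the formula gives `40`. -/
theorem result : complexity (2 ^ 0 * (2 ^ 3 + 2) ^ 10) < 0 + (3 + 1) * 10 ∧
    ¬ ∀ m u r : ℕ, 2 ≤ u → 1 ≤ r →
      complexity (2 ^ m * (2 ^ u + 2) ^ r) = m + (u + 1) * r := by
  have h : complexity (2 ^ 0 * (2 ^ 3 + 2) ^ 10) ≤ 39 := by
    have := complexity_le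
    norm_num at this ⊢
    exact this
  refine ⟨by omega, ?_⟩
  intro hall
  have := hall 0 3 10 (by norm_num) (by norm_num)
  omega

end Pool.Agent.Results.MP_5f25aa_nt.TenToTheTen
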